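import Mathlib

set_option autoImplicit false

namespace Pool.Agent.Lib.MP_29b974_an

open Polynomial

/-- the closed subalgebra of uniform limits of polynomials on `Q` -/
noncomputable def polyClosure (Q : Set ℂ) [CompactSpace Q] : Subalgebra ℂ C(Q, ℂ) :=
  (polynomialFunctions Q).topologicalClosure

instance polyClosure_closed (Q : Set ℂ) [CompactSpace Q] :
    IsClosed (polyClosure Q : Set C(Q, ℂ)) :=
  Subalgebra.isClosed_topologicalClosure _

/-- polynomial functions as an algebra map into the closed subalgebra -/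
noncomputable def polyMap (Q : Set ℂ) [CompactSpace Q] : ℂ[X] →ₐ[ℂ] polyClosure Q :=
  (Polynomial.toContinuousMapOnAlgHom Q).codRestrict (polyClosure Q) (fun p =>
    (polynomialFunctions Q).le_topologicalClosure ⟨p, by simp, rfl⟩)

lemma polyMap_apply (Q : Set ℂ) [CompactSpace Q] (p : ℂ[X]) (w : Q) :
    ((polyMap Q p : polyClosure Q) : C(Q, ℂ)) w = p.eval (w : ℂ) := rfl

lemma isUnit_linear (Q : Set ℂ) [CompactSpace Q] (b : ℂ) (hb : b ≠ 0)
    (hray : ∀ t : ℝ, 1 ≤ t → (t : ℂ) * b ∉ Q) :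
    IsUnit (polyMap Q (C b - X)) := by
  by_contra hcon
  have hspec : b ∈ spectrum ℂ (polyMap Q X) := by
    rw [spectrum.mem_iff]
    intro h
    apply hcon
    have : polyMap Q (C b - X) = algebraMap ℂ (polyClosure Q) b - polyMap Q X := by
      rw [map_sub, ← Polynomial.algebraMap_eq, AlgHom.commutes]
    rw [this]
    exact h
  have hbdd := Subalgebra.spectrum_isBounded_connectedComponentIn (polyClosure Q)
    (polyMap Q X) hspec
  have hrange : spectrum ℂ ((polyMap Q X : polyClosure Q) : C(Q, ℂ)) = Q := by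
    rw [ContinuousMap.spectrum_eq_range]
    ext w
    simp [polyMap_apply]
  rw [hrange] at hbdd
  have hsub : (fun t : ℝ => (t : ℂ) * b) '' Set.Ici 1 ⊆ connectedComponentIn Qᶜ b := by
    apply IsPreconnected.subset_connectedComponentIn
    · apply IsPreconnected.image isPreconnected_Ici
      fun_prop
    · exact ⟨1, by simp, by simp⟩
    · rintro _ ⟨t, ht, rfl⟩
      exact hray t ht
  have hb2 := hbdd.subset hsub
  rw [isBounded_iff_forall_norm_le] at hb2
  obtain ⟨M, hM⟩ := hb2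
  have hbpos : 0 < ‖b‖ := norm_pos_iff.mpr hb
  have h1 := hM _ ⟨max 1 ((|M| + 1) / ‖b‖), by simp, rfl⟩
  rw [norm_mul, Complex.norm_real, Real.norm_eq_abs, abs_of_nonneg (by positivity)] at h1
  have h2 : (|M| + 1) / ‖b‖ * ‖b‖ ≤ M :=
    le_trans (mul_le_mul_of_nonneg_right (le_max_right _ _) hbpos.le) h1
  rw [div_mul_cancel₀ _ hbpos.ne'] at h2
  linarith [le_abs_self M]

lemma isUnit_poly (Q : Set ℂ) [CompactSpace Q] (q : ℂ[X]) (hq : q ≠ 0)
    (hroots : ∀ b ∈ q.roots, b ≠ 0 ∧ ∀ t : ℝ, 1 ≤ t → (t : ℂ) * b ∉ Q) :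
    IsUnit (polyMap Q q) := by
  have hsplit : q = C q.leadingCoeff * (q.roots.map (fun a => X - C a)).prod :=
    (IsAlgClosed.splits q).eq_prod_roots
  rw [hsplit, map_mul, map_multiset_prod]
  apply IsUnit.mul
  · have : IsUnit (C q.leadingCoeff : ℂ[X]) := by
      rw [Polynomial.isUnit_C]
      exact (leadingCoeff_ne_zero.mpr hq).isUnit
    exact this.map (polyMap Q)
  · rw [Multiset.map_map]
    apply Multiset.prod_induction _ _ (fun a b ha hb => ha.mul hb) isUnit_one
    intro a ha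
    rw [Multiset.mem_map] at ha
    obtain ⟨b, hb, rfl⟩ := ha
    have h := isUnit_linear Q b (hroots b hb).1 (hroots b hb).2
    have h2 : polyMap Q (X - C b) = - polyMap Q (C b - X) := by
      rw [← map_neg]; congr 1; ring
    simp only [Function.comp_apply]
    rw [h2]
    exact h.neg

/-- Runge's theorem for the reciprocal of a polynomial whose roots can be pushed
radially to infinity without meeting `Q`. -/
lemma runge_reciprocal (Q : Set ℂ) (hQ : IsCompact Q) (q : ℂ[X]) (hq : q ≠ 0)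
    (hroots : ∀ b ∈ q.roots, b ≠ 0 ∧ ∀ t : ℝ, 1 ≤ t → (t : ℂ) * b ∉ Q)
    (δ : ℝ) (hδ : 0 < δ) :
    ∃ p : ℂ[X], ∀ w ∈ Q, ‖p.eval w - (q.eval w)⁻¹‖ ≤ δ := by
  have : CompactSpace Q := isCompact_iff_compactSpace.mp hQ
  obtain ⟨u, hu⟩ := isUnit_poly Q q hq hroots
  have hmem : (((u⁻¹ : (polyClosure Q)ˣ) : polyClosure Q) : C(Q, ℂ)) ∈
      closure (polynomialFunctions Q : Set C(Q, ℂ)) := by
    have := ((u⁻¹ : (polyClosure Q)ˣ) : polyClosure Q).2
    exact this
  rw [Metric.mem_closure_iff] at hmem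
  obtain ⟨y, hy, hdist⟩ := hmem δ hδ
  rw [polynomialFunctions_coe] at hy
  obtain ⟨p, rfl⟩ := hy
  refine ⟨p, fun w hw => ?_⟩
  have hval : (((u⁻¹ : (polyClosure Q)ˣ) : polyClosure Q) : C(Q, ℂ)) ⟨w, hw⟩ = (q.eval w)⁻¹ := by
    have h1 : ((u : polyClosure Q) * ((u⁻¹ : (polyClosure Q)ˣ) : polyClosure Q)) = 1 :=
      u.mul_inv
    have h2 := congrArg (fun x : polyClosure Q => (x : C(Q, ℂ)) ⟨w, hw⟩) h1
    simp only [hu, MulMemClass.coe_mul, ContinuousMap.mul_apply, polyMap_apply,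
      OneMemClass.coe_one, ContinuousMap.one_apply] at h2
    exact eq_inv_of_mul_eq_one_right h2
  have h3 := (ContinuousMap.dist_le hδ.le).mp hdist.le ⟨w, hw⟩
  rw [hval, dist_comm, dist_eq_norm] at h3
  simpa using h3

end Pool.Agent.Lib.MP_29b974_an
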