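import Mathlib
import Pool.Agent.Lib.MP_29b974_an.Runge

set_option autoImplicit false

namespace Pool.Agent.Lib.MP_29b974_an

open Polynomial

/-- `w^m` stays away (angularly) from the negative real axis. -/
def Good (m : ℕ) (κ : ℝ) (w : ℂ) : Prop := κ * ‖w‖ ^ m ≤ ‖w ^ m + (‖w‖ : ℂ) ^ m‖

lemma good_bound (m : ℕ) (κ r : ℝ) (hκ1 : κ ≤ 2) (hr : 0 < r) (w : ℂ)
    (hm : 0 < m) (hw : Good m κ w) : κ / 2 ≤ ‖1 + (w / r) ^ m‖ := by
  by_cases hw0 : w = 0
  · subst hw0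
    simp only [zero_div]
    rw [zero_pow hm.ne']
    simp
    linarith
  have hwn : 0 < ‖w‖ := norm_pos_iff.mpr hw0
  set x : ℝ := (‖w‖ / r) ^ m with hx
  set u : ℂ := w ^ m / (‖w‖ : ℂ) ^ m with hu
  have hwc : ((‖w‖ : ℝ) : ℂ) ≠ 0 := by exact_mod_cast hwn.ne'
  have hun : ‖u‖ = 1 := by
    rw [hu, norm_div, norm_pow, norm_pow, Complex.norm_real, norm_norm]
    exact div_self (by positivity)
  have hxu : (w / r) ^ m = (x : ℂ) * u := by
    rw [hx, hu]
    push_cast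
    rw [div_pow, div_pow]
    have hrc : ((r : ℝ) : ℂ) ≠ 0 := by exact_mod_cast hr.ne'
    field_simp
  have hku : κ ≤ ‖1 + u‖ := by
    have h1 : w ^ m + (‖w‖ : ℂ) ^ m = (‖w‖ : ℂ) ^ m * (1 + u) := by
      rw [hu]
      field_simp
      ring
    unfold Good at hw
    rw [h1, norm_mul, norm_pow, Complex.norm_real, norm_norm, mul_comm κ] at hw
    exact le_of_mul_le_mul_left hw (by positivity)
  rw [hxu]
  have hx0 : 0 ≤ x := by positivity
  have h2 : ‖1 + u‖ ≤ ‖1 + (x : ℂ) * u‖ + |1 - x| := by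
    have : 1 + u = (1 + (x : ℂ) * u) + ((1 - x : ℝ) : ℂ) * u := by push_cast; ring
    rw [this]
    refine (norm_add_le _ _).trans ?_
    rw [norm_mul, hun, mul_one, Complex.norm_real, Real.norm_eq_abs]
  have h3 : |1 - x| ≤ ‖1 + (x : ℂ) * u‖ := by
    have h4 : ‖(x : ℂ) * u‖ = x := by
      rw [norm_mul, hun, mul_one, Complex.norm_real, Real.norm_eq_abs, abs_of_nonneg hx0]
    rw [abs_le]
    constructor
    · have := norm_sub_norm_le ((x : ℂ) * u) (-1 : ℂ)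
      rw [h4, norm_neg, norm_one] at this
      have h5 : (x : ℂ) * u - -1 = 1 + (x : ℂ) * u := by ring
      rw [h5] at this
      linarith
    · have := norm_sub_norm_le (1 : ℂ) (-((x : ℂ) * u))
      rw [norm_neg, h4, norm_one] at this
      have h5 : (1 : ℂ) - -((x : ℂ) * u) = 1 + (x : ℂ) * u := by ring
      rw [h5] at this
      linarith
  linarith

lemma onevar (ρ ρ2 ρ3 κ : ℝ) (hρ : 0 < ρ) (h12 : ρ < ρ2) (h23 : ρ2 < ρ3)
    (hκ : 0 < κ) (hκ1 : κ ≤ 2) (δ : ℝ) (hδ : 0 < δ) (hδ1 : δ ≤ 1) :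
    ∃ m : ℕ, 0 < m ∧ ∃ p : ℂ[X],
      (∀ w : ℂ, ‖w‖ ≤ ρ → ‖p.eval w - 1‖ ≤ δ) ∧
      (∀ w : ℂ, ‖w‖ ≤ 1 → Good m κ w → ‖p.eval w‖ ≤ 2 / κ + 1) ∧
      (∀ w : ℂ, ρ3 ≤ ‖w‖ → ‖w‖ ≤ 1 → Good m κ w → ‖p.eval w‖ ≤ δ) := by
  have hρ2 : 0 < ρ2 := hρ.trans h12
  have ht1 : Filter.Tendsto (fun m : ℕ => (ρ / ρ2) ^ m) Filter.atTop (nhds 0) :=
    tendsto_pow_atTop_nhds_zero_of_lt_one (by positivity) (by rwa [div_lt_one hρ2])
  have ht2 : Filter.Tendsto (fun m : ℕ => (ρ3 / ρ2) ^ m) Filter.atTop Filter.atTop :=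
    tendsto_pow_atTop_atTop_of_one_lt (by rwa [one_lt_div hρ2])
  have he1 := ht1.eventually (gt_mem_nhds (show (0 : ℝ) < δ / 4 by positivity))
  have he2 := ht2.eventually (Filter.eventually_ge_atTop (1 + 2 / δ))
  obtain ⟨m, ⟨hm1, hm2⟩, hm0⟩ := ((he1.and he2).and (Filter.eventually_gt_atTop 0)).exists
  refine ⟨m, hm0, ?_⟩
  set q : ℂ[X] := 1 + C (((ρ2 : ℂ)⁻¹) ^ m) * X ^ m with hq
  have hqe : ∀ w : ℂ, q.eval w = 1 + (w / ρ2) ^ m := by
    intro w
    simp [hq]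
    ring
  have hρ2c : ((ρ2 : ℝ) : ℂ) ≠ 0 := by exact_mod_cast hρ2.ne'
  have hq0 : q ≠ 0 := by
    intro h
    have := hqe 0
    rw [h] at this
    simp [hm0.ne'] at this
  set Q : Set ℂ := {w | ‖w‖ ≤ ρ ∨ (‖w‖ ≤ 1 ∧ Good m κ w)} with hQ
  have hQc : IsCompact Q := by
    apply Metric.isCompact_of_isClosed_isBounded
    · apply IsClosed.union
      · exact isClosed_le continuous_norm continuous_const
      · apply IsClosed.inter
        · exact isClosed_le continuous_norm continuous_const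
        · have : IsClosed {w : ℂ | κ * ‖w‖ ^ m ≤ ‖w ^ m + (‖w‖ : ℂ) ^ m‖} := by
            apply isClosed_le
            · fun_prop
            · fun_prop
          exact this
    · rw [isBounded_iff_forall_norm_le]
      refine ⟨max ρ 1, ?_⟩
      rintro w (hw | hw)
      · exact hw.trans (le_max_left _ _)
      · exact hw.1.trans (le_max_right _ _)
  have hroots : ∀ b ∈ q.roots, b ≠ 0 ∧ ∀ t : ℝ, 1 ≤ t → (t : ℂ) * b ∉ Q := by
    intro b hb
    rw [Polynomial.mem_roots hq0, Polynomial.IsRoot.def, hqe] at hb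
    have hbm : b ^ m = - (ρ2 : ℂ) ^ m := by
      rw [div_pow] at hb
      have : b ^ m / (ρ2 : ℂ) ^ m = -1 := by linear_combination hb
      rw [div_eq_iff (pow_ne_zero _ hρ2c)] at this
      rw [this]; ring
    have hbn : ‖b‖ = ρ2 := by
      have h1 : ‖b‖ ^ m = ρ2 ^ m := by
        rw [← norm_pow, hbm, norm_neg, norm_pow, Complex.norm_real, Real.norm_eq_abs,
          abs_of_pos hρ2]
      exact (pow_left_inj₀ (norm_nonneg _) hρ2.le hm0.ne').mp h1
    have hb0 : b ≠ 0 := by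
      intro h
      rw [h, norm_zero] at hbn
      exact hρ2.ne hbn
    refine ⟨hb0, ?_⟩
    intro t ht htQ
    have htn : ‖(t : ℂ) * b‖ = t * ρ2 := by
      rw [norm_mul, Complex.norm_real, Real.norm_eq_abs, abs_of_pos (by linarith), hbn]
    rcases htQ with h | h
    · rw [htn] at h
      nlinarith
    · have h2 := h.2
      unfold Good at h2
      rw [htn] at h2
      have h3 : ((t : ℂ) * b) ^ m + ((t * ρ2 : ℝ) : ℂ) ^ m = 0 := by
        rw [mul_pow, hbm]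
        push_cast
        ring
      rw [h3, norm_zero] at h2
      have h4 : 0 < κ * (t * ρ2) ^ m := by positivity
      linarith
  obtain ⟨p, hp⟩ := runge_reciprocal Q hQc q hq0 hroots (δ / 2) (by positivity)
  refine ⟨p, ?_, ?_, ?_⟩
  · intro w hw
    have h1 := hp w (Or.inl hw)
    have h2 : ‖(w / ρ2) ^ m‖ ≤ δ / 4 := by
      rw [norm_pow, norm_div, Complex.norm_real, Real.norm_eq_abs, abs_of_pos hρ2]
      refine le_trans ?_ hm1.le
      gcongr
    have h3 : ‖(q.eval w)⁻¹ - 1‖ ≤ δ / 2 := by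
      rw [hqe]
      set y : ℂ := (w / ρ2) ^ m with hy
      have hy1 : ‖y‖ ≤ 1 / 4 := by linarith
      have h5 : 1 / 2 ≤ ‖1 + y‖ := by
        have := norm_sub_norm_le (1 : ℂ) (-y)
        rw [norm_neg, norm_one, sub_neg_eq_add] at this
        linarith
      have h6 : (1 + y) ≠ 0 := by
        intro h
        rw [h, norm_zero] at h5
        linarith
      have h7 : (1 + y)⁻¹ - 1 = -y / (1 + y) := by
        field_simp
        ring
      rw [h7, norm_div, norm_neg, div_le_iff₀ (by linarith)]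
      nlinarith [norm_nonneg y]
    calc ‖p.eval w - 1‖ = ‖(p.eval w - (q.eval w)⁻¹) + ((q.eval w)⁻¹ - 1)‖ := by
          congr 1; ring
      _ ≤ δ / 2 + δ / 2 := (norm_add_le _ _).trans (add_le_add h1 h3)
      _ = δ := by ring
  · intro w hw hg
    have h1 := hp w (Or.inr ⟨hw, hg⟩)
    have h2 := good_bound m κ ρ2 hκ1 hρ2 w hm0 hg
    rw [← hqe] at h2
    have h3 : ‖(q.eval w)⁻¹‖ ≤ 2 / κ := by
      rw [norm_inv, inv_le_comm₀ (by linarith) (by positivity)]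
      rw [inv_div]
      exact h2
    calc ‖p.eval w‖ = ‖(p.eval w - (q.eval w)⁻¹) + (q.eval w)⁻¹‖ := by congr 1; ring
      _ ≤ δ / 2 + 2 / κ := (norm_add_le _ _).trans (add_le_add h1 h3)
      _ ≤ 2 / κ + 1 := by linarith
  · intro w hw3 hw hg
    have h1 := hp w (Or.inr ⟨hw, hg⟩)
    have h2 : 2 / δ ≤ ‖q.eval w‖ := by
      rw [hqe]
      have h4 : 1 + 2 / δ ≤ ‖(w / ρ2) ^ m‖ := by
        rw [norm_pow, norm_div, Complex.norm_real, Real.norm_eq_abs, abs_of_pos hρ2]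
        refine hm2.trans ?_
        have : 0 < ρ3 := hρ2.trans h23
        gcongr
      have := norm_sub_norm_le ((w / ρ2) ^ m) (-1 : ℂ)
      rw [norm_neg, norm_one, sub_neg_eq_add, add_comm] at this
      linarith
    have h3 : ‖(q.eval w)⁻¹‖ ≤ δ / 2 := by
      rw [norm_inv, inv_le_comm₀ (lt_of_lt_of_le (by positivity) h2) (by positivity), inv_div]
      exact h2
    calc ‖p.eval w‖ = ‖(p.eval w - (q.eval w)⁻¹) + (q.eval w)⁻¹‖ := by congr 1; ring
      _ ≤ δ / 2 + δ / 2 := (norm_add_le _ _).trans (add_le_add h1 h3)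
      _ = δ := by ring

end Pool.Agent.Lib.MP_29b974_an
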