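import Mathlib
import Pool.Agent.Lib.MP_29b974_an.OneVar

set_option autoImplicit false

namespace Pool.Agent.Lib.MP_29b974_an

open Polynomial MeasureTheory

/-- `C^n` with the Euclidean norm -/
abbrev V (n : ℕ) := EuclideanSpace ℂ (Fin n)

/-- `C^n` as a product space (carrying Lebesgue measure) -/
abbrev W (n : ℕ) := Fin n → ℂ

/-- identification -/
noncomputable abbrev T {n : ℕ} (w : W n) : V n := WithLp.toLp 2 w

lemma exists_pos_le_finset {ι : Type*} (s : Finset ι) (f : ι → ℝ) (hf : ∀ i ∈ s, 0 < f i) :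
    ∃ c : ℝ, 0 < c ∧ ∀ i ∈ s, c ≤ f i := by
  classical
  induction s using Finset.induction with
  | empty => exact ⟨1, one_pos, by simp⟩
  | insert a s ha ih =>
    obtain ⟨c, hc, h⟩ := ih (fun i hi => hf i (Finset.mem_insert_of_mem hi))
    refine ⟨min c (f a), lt_min hc (hf a (Finset.mem_insert_self _ _)), ?_⟩
    intro i hi
    rcases Finset.mem_insert.mp hi with rfl | hi
    · exact min_le_right _ _
    · exact (min_le_left _ _).trans (h i hi)

/-- separation constant for the `K`-th roots of unity -/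
lemma exists_kappa (K : ℕ) (hK : 0 < K) : ∃ κ : ℝ, 0 < κ ∧ κ ≤ 2 ∧
    ∀ l l' : ℕ, l < K → l' < K → l ≠ l' →
      2 * κ ≤ ‖Complex.exp (2 * Real.pi * Complex.I / K) ^ l -
        Complex.exp (2 * Real.pi * Complex.I / K) ^ l'‖ := by
  have hprim := Complex.isPrimitiveRoot_exp K hK.ne'
  obtain ⟨c, hc, h⟩ := exists_pos_le_finset
    (((Finset.range K) ×ˢ (Finset.range K)).filter (fun x => x.1 ≠ x.2))
    (fun x => ‖Complex.exp (2 * Real.pi * Complex.I / K) ^ x.1 -
        Complex.exp (2 * Real.pi * Complex.I / K) ^ x.2‖) (by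
      rintro ⟨l, l'⟩ hx
      simp only [Finset.mem_filter, Finset.mem_product, Finset.mem_range] at hx
      rw [norm_pos_iff, sub_ne_zero]
      intro heq
      exact hx.2 (hprim.pow_inj hx.1.1 hx.1.2 heq))
  refine ⟨min 2 (c / 2), by positivity, min_le_left _ _, ?_⟩
  intro l l' hl hl' hne
  have h1 := h (l, l') (by
    simp only [Finset.mem_filter, Finset.mem_product, Finset.mem_range]
    exact ⟨⟨hl, hl'⟩, hne⟩)
  have h2 : min 2 (c / 2) ≤ c / 2 := min_le_right _ _
  simp only at h1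
  linarith

/-- rotation by a unimodular scalar preserves Lebesgue measure on `C^n` -/
lemma mp_rot (n : ℕ) (c : Circle) :
    MeasurePreserving (fun (w : W n) (i : Fin n) => (c : ℂ) * w i) volume volume := by
  have h := volume_preserving_pi (ι := Fin n) (α' := fun _ => ℂ) (β' := fun _ => ℂ)
    (f := fun _ z => (c : ℂ) * z) (fun i => by
      have := (rotation c).measurePreserving
      exact this)
  exact h

lemma meas_bad (n : ℕ) (K : ℕ) (hK : 0 < K) (κ : ℝ)
    (hκ : ∀ l l' : ℕ, l < K → l' < K → l ≠ l' →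
      2 * κ ≤ ‖Complex.exp (2 * Real.pi * Complex.I / K) ^ l -
        Complex.exp (2 * Real.pi * Complex.I / K) ^ l'‖)
    (m : ℕ) (hm : 0 < m) (a : V n) (R : ℝ) :
    (K : ENNReal) * volume {w : W n | ¬ Good m κ (inner ℂ a (T w)) ∧ ‖T w‖ < R} ≤
      volume {w : W n | ‖T w‖ < R} := by
  set ω : ℂ := Complex.exp (2 * Real.pi * Complex.I / (m * K : ℕ)) with hω
  have hωm : ω ^ m = Complex.exp (2 * Real.pi * Complex.I / K) := by
    rw [hω, ← Complex.exp_nat_mul]
    congr 1
    have hmc : (m : ℂ) ≠ 0 := by exact_mod_cast hm.ne'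
    have hKc : (K : ℂ) ≠ 0 := by exact_mod_cast hK.ne'
    push_cast
    field_simp
  have hωn : ‖ω‖ = 1 := by
    rw [hω, Complex.norm_exp]
    have : (2 * Real.pi * Complex.I / ((m * K : ℕ) : ℂ)).re = 0 := by
      have h1 : (2 * Real.pi * Complex.I / ((m * K : ℕ) : ℂ)) =
          ((2 * Real.pi / ((m * K : ℕ) : ℝ) : ℝ) : ℂ) * Complex.I := by
        push_cast; ring
      rw [h1, Complex.re_ofReal_mul, Complex.I_re, mul_zero]
    rw [this, Real.exp_zero]
  set c : Circle := ⟨ω, by simp [Submonoid.unitSphere, hωn]⟩ with hc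
  have hcω : (c : ℂ) = ω := rfl
  set S : Set (W n) := {w : W n | ¬ Good m κ (inner ℂ a (T w)) ∧ ‖T w‖ < R} with hS
  have hTc : Continuous (fun w : W n => T w) := PiLp.continuous_toLp 2 _
  have hSo : IsOpen S := by
    have h1 : IsOpen {w : W n | ‖T w‖ < R} :=
      isOpen_lt (by fun_prop) continuous_const
    have h2 : IsOpen {w : W n | ¬ Good m κ (inner ℂ a (T w))} := by
      have : {w : W n | ¬ Good m κ (inner ℂ a (T w))} =
          {w : W n | ‖(inner ℂ a (T w)) ^ m + (‖(inner ℂ a (T w) : ℂ)‖ : ℂ) ^ m‖ <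
            κ * ‖(inner ℂ a (T w) : ℂ)‖ ^ m} := by
        ext w
        simp [Good]
      rw [this]
      apply isOpen_lt
      · fun_prop
      · fun_prop
    exact h2.inter h1
  set ρ : ℕ → W n → W n := fun l w i => ((c ^ l : Circle) : ℂ) * w i with hρ
  have hρmp : ∀ l, MeasurePreserving (ρ l) volume volume := fun l => mp_rot n (c ^ l)
  have hTρ : ∀ l w, T (ρ l w) = (ω ^ l) • T w := by
    intro l w
    ext i
    simp [hρ, hcω]
  have hin : ∀ l w, inner ℂ a (T (ρ l w)) = ω ^ l * inner ℂ a (T w) := by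
    intro l w
    rw [hTρ, inner_smul_right]
  have hsub : ∀ l, (ρ l) ⁻¹' S ⊆ {w : W n | ‖T w‖ < R} := by
    intro l w hw
    have := hw.2
    rw [hTρ, norm_smul, norm_pow, hωn, one_pow, one_mul] at this
    exact this
  have hmeas : ∀ l, volume ((ρ l) ⁻¹' S) = volume S := fun l =>
    (hρmp l).measure_preimage hSo.measurableSet.nullMeasurableSet
  have hdisj : ((Finset.range K : Finset ℕ) : Set ℕ).PairwiseDisjoint (fun l => (ρ l) ⁻¹' S) := by
    intro l hl l' hl' hne
    simp only [Finset.coe_range, Set.mem_Iio] at hl hl'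
    rw [Function.onFun, Set.disjoint_left]
    intro w hw hw'
    have h1 := hw.1
    have h2 := hw'.1
    rw [hin] at h1 h2
    set x : ℂ := inner ℂ a (T w) with hx
    simp only [Good, not_le, norm_mul, norm_pow, hωn, one_pow, one_mul, mul_pow] at h1 h2
    have hxn : 0 < ‖x‖ ^ m := by
      rcases eq_or_ne x 0 with h | h
      · rw [h] at h1
        simp [hm.ne'] at h1
      · positivity
    have h3 : ‖(ω ^ l) ^ m * x ^ m - (ω ^ l') ^ m * x ^ m‖ < 2 * κ * ‖x‖ ^ m := by
      have h4 : (ω ^ l) ^ m * x ^ m - (ω ^ l') ^ m * x ^ m =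
          ((ω ^ l) ^ m * x ^ m + (‖x‖ : ℂ) ^ m) - ((ω ^ l') ^ m * x ^ m + (‖x‖ : ℂ) ^ m) := by
        ring
      rw [h4]
      refine (norm_sub_le _ _).trans_lt ?_
      linarith
    have h5 : (ω ^ l) ^ m * x ^ m - (ω ^ l') ^ m * x ^ m =
        ((ω ^ m) ^ l - (ω ^ m) ^ l') * x ^ m := by
      rw [← pow_mul, ← pow_mul, ← pow_mul, ← pow_mul, mul_comm l, mul_comm l']
      ring
    rw [h5, norm_mul, norm_pow, hωm] at h3
    have h6 := hκ l l' hl hl' hne
    have h7 := lt_of_mul_lt_mul_right h3 hxn.le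
    linarith
  calc (K : ENNReal) * volume S = ∑ l ∈ Finset.range K, volume ((ρ l) ⁻¹' S) := by
        rw [Finset.sum_congr rfl (fun l _ => hmeas l)]
        simp
    _ = volume (⋃ l ∈ Finset.range K, (ρ l) ⁻¹' S) := by
        rw [measure_biUnion_finset hdisj]
        intro l _
        exact (hρmp l).measurable hSo.measurableSet
    _ ≤ volume {w : W n | ‖T w‖ < R} := by
        apply measure_mono
        intro w hw
        simp only [Set.mem_iUnion] at hw
        obtain ⟨l, _, hw⟩ := hw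
        exact hsub l hw

end Pool.Agent.Lib.MP_29b974_an
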