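import Mathlib
import Pool.Agent.Lib.MP_29b974_an.Key

set_option autoImplicit false

namespace Pool.Agent.Lib.MP_29b974_an

open Polynomial MeasureTheory

/-- finite net of directions -/
lemma exists_net (n : ℕ) (θ : ℝ) (hθ : θ < 1) : ∃ A : Finset (V n), (∀ a ∈ A, ‖a‖ = 1) ∧
    ∀ z : V n, ‖z‖ = 1 → ∃ a ∈ A, θ < ‖inner ℂ a z‖ := by
  obtain ⟨t, ht1, ht2⟩ := (isCompact_sphere (0 : V n) 1).elim_nhds_subcover
    (fun a => {z : V n | θ < ‖inner ℂ a z‖}) (by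
      intro a ha
      have ha1 : ‖a‖ = 1 := by simpa using ha
      apply IsOpen.mem_nhds
      · exact isOpen_lt continuous_const (by fun_prop)
      · simp only [Set.mem_ofPred_eq]
        rw [inner_self_eq_norm_sq_to_K, ha1]
        simpa using hθ)
  refine ⟨t, fun a ha => by simpa using ht1 a ha, ?_⟩
  intro z hz
  have := ht2 (show z ∈ Metric.sphere (0 : V n) 1 by simpa using hz)
  simp only [Set.mem_iUnion, Set.mem_ofPred_eq] at this
  obtain ⟨a, ha, h⟩ := this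
  exact ⟨a, ha, h⟩

lemma vol_ball_lt_top (n : ℕ) (R : ℝ) : volume {w : W n | ‖T w‖ < R} < ⊤ := by
  have hsub : {w : W n | ‖T w‖ < R} ⊆ Metric.ball 0 (max R 1) := by
    intro w hw
    rw [Metric.mem_ball, dist_zero_right]
    have h1 : ‖w‖ ≤ ‖T w‖ := by
      rw [pi_norm_le_iff_of_nonneg (norm_nonneg _)]
      intro i
      exact PiLp.norm_apply_le (T w) i
    exact lt_of_lt_of_le (lt_of_le_of_lt h1 hw) (le_max_left _ _)
  exact lt_of_le_of_lt (measure_mono hsub) measure_ball_lt_top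

lemma diff_prod (n : ℕ) (p : Polynomial ℂ) (A : Finset (V n)) :
    Differentiable ℂ (fun z : V n => ∏ a ∈ A, p.eval (inner ℂ a z)) := by
  classical
  have : ∀ a : V n, Differentiable ℂ (fun z : V n => p.eval (inner ℂ a z)) := by
    intro a
    have h1 : Differentiable ℂ (fun z : V n => (inner ℂ a z : ℂ)) :=
      (innerSL ℂ a).differentiable
    exact p.differentiable.comp h1
  induction A using Finset.induction with
  | empty => simp
  | insert b B hb ih =>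
    simp only [Finset.prod_insert hb]
    exact (this b).mul ih

theorem key (n : ℕ) (ρ ρ' R ε : ℝ) (hρ : 0 < ρ) (hρρ : ρ < ρ') (hε : 0 < ε) :
    ∃ C : ℝ, 1 ≤ C ∧ ∀ δ : ℝ, 0 < δ → ∃ F : V n → ℂ, ∃ G : Set (V n),
      Differentiable ℂ F ∧
      (∀ t : ℝ, 0 < t → ∀ z : V n, ((t : ℂ) • z ∈ G ↔ z ∈ G)) ∧
      volume {w : W n | T w ∈ G ∧ ‖T w‖ < R} ≤ ENNReal.ofReal ε ∧
      (∀ z : V n, ‖z‖ ≤ ρ → ‖F z - 1‖ ≤ δ) ∧
      (∀ z : V n, ‖z‖ ≤ 1 → z ∉ G → ‖F z‖ ≤ C) ∧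
      (∀ z : V n, ρ' ≤ ‖z‖ → ‖z‖ ≤ 1 → z ∉ G → ‖F z‖ ≤ δ) := by
  classical
  set ρ2 : ℝ := (2 * ρ + ρ') / 3 with hρ2
  set ρ3 : ℝ := (ρ + 2 * ρ') / 3 with hρ3
  have h12 : ρ < ρ2 := by rw [hρ2]; linarith
  have h23 : ρ2 < ρ3 := by rw [hρ2, hρ3]; linarith
  have h34 : ρ3 < ρ' := by rw [hρ3]; linarith
  have hρ'0 : 0 < ρ' := hρ.trans hρρ
  have hρ30 : 0 < ρ3 := hρ.trans (h12.trans h23)
  obtain ⟨A, hA1, hA2⟩ := exists_net n (ρ3 / ρ') (by rwa [div_lt_one hρ'0])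
  set N : ℕ := A.card with hN
  set vb : ENNReal := volume {w : W n | ‖T w‖ < R} with hvb
  have hvbt : vb ≠ ⊤ := (vol_ball_lt_top n R).ne
  obtain ⟨K, hK0, hK⟩ : ∃ K : ℕ, 0 < K ∧ (N : ℝ) * vb.toReal / K ≤ ε := by
    obtain ⟨K, hK⟩ := exists_nat_gt ((N : ℝ) * vb.toReal / ε)
    have hK0 : 0 < (K : ℝ) := lt_of_le_of_lt (by positivity) hK
    refine ⟨K, by exact_mod_cast hK0, ?_⟩
    rw [div_le_iff₀ hK0]
    rw [div_lt_iff₀ hε] at hK
    linarith
  obtain ⟨κ, hκ0, hκ2, hκ⟩ := exists_kappa K hK0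
  have hC1 : 1 ≤ 2 / κ + 1 := by
    have : 0 < 2 / κ := by positivity
    linarith
  refine ⟨(2 / κ + 1) ^ N, one_le_pow₀ hC1, ?_⟩
  intro δ hδ
  -- choose a small δ1
  obtain ⟨δ1, hδ1, hδ11, hδ1a, hδ1b⟩ : ∃ δ1 : ℝ, 0 < δ1 ∧ δ1 ≤ 1 ∧
      Real.exp (N * δ1) - 1 ≤ δ ∧ δ1 * (2 / κ + 1) ^ N ≤ δ := by
    have hc1 : Filter.Tendsto (fun x : ℝ => Real.exp (N * x) - 1) (nhdsWithin 0 (Set.Ioi 0))
        (nhds 0) := by
      have : Continuous (fun x : ℝ => Real.exp (N * x) - 1) := by fun_prop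
      have h := this.tendsto 0
      simp only [mul_zero, Real.exp_zero, sub_self] at h
      exact h.mono_left nhdsWithin_le_nhds
    have hc2 : Filter.Tendsto (fun x : ℝ => x * (2 / κ + 1) ^ N) (nhdsWithin 0 (Set.Ioi 0))
        (nhds 0) := by
      have : Continuous (fun x : ℝ => x * (2 / κ + 1) ^ N) := by fun_prop
      have h := this.tendsto 0
      simp only [zero_mul] at h
      exact h.mono_left nhdsWithin_le_nhds
    have e1 := hc1.eventually (gt_mem_nhds hδ)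
    have e2 := hc2.eventually (gt_mem_nhds hδ)
    have e3 : ∀ᶠ x : ℝ in nhdsWithin 0 (Set.Ioi 0), 0 < x ∧ x ≤ 1 := by
      have h1 : ∀ᶠ x : ℝ in nhdsWithin 0 (Set.Ioi 0), x ∈ Set.Ioi (0 : ℝ) :=
        eventually_mem_nhdsWithin
      have h2 : ∀ᶠ x : ℝ in nhdsWithin 0 (Set.Ioi 0), x < 1 :=
        (gt_mem_nhds (show (0 : ℝ) < 1 by norm_num)).filter_mono nhdsWithin_le_nhds
      filter_upwards [h1, h2] with x hx1 hx2
      exact ⟨hx1, hx2.le⟩
    obtain ⟨x, ⟨hx1, hx2⟩, hx3⟩ := ((e1.and e2).and e3).exists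
    exact ⟨x, hx3.1, hx3.2, hx1.le, hx2.le⟩
  obtain ⟨m, hm0, p, hp1, hp2, hp3⟩ := onevar ρ ρ2 ρ3 κ hρ h12 h23 hκ0 hκ2 δ1 hδ1 hδ11
  set F : V n → ℂ := fun z => ∏ a ∈ A, p.eval (inner ℂ a z) with hF
  set G : Set (V n) := {z | ∃ a ∈ A, ¬ Good m κ (inner ℂ a z)} with hG
  have hinner : ∀ a ∈ A, ∀ z : V n, ‖(inner ℂ a z : ℂ)‖ ≤ ‖z‖ := by
    intro a ha z
    have := norm_inner_le_norm (𝕜 := ℂ) a z
    rwa [hA1 a ha, one_mul] at this
  refine ⟨F, G, ?_, ?_, ?_, ?_, ?_, ?_⟩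
  · exact diff_prod n p A
  · intro t ht z
    simp only [hG, Set.mem_ofPred_eq]
    have : ∀ a : V n, (Good m κ (inner ℂ a ((t : ℂ) • z)) ↔ Good m κ (inner ℂ a z)) := by
      intro a
      rw [inner_smul_right]
      unfold Good
      rw [norm_mul, Complex.norm_real, Real.norm_eq_abs, abs_of_pos ht]
      have h1 : ((t : ℂ) * inner ℂ a z) ^ m + ((t * ‖(inner ℂ a z : ℂ)‖ : ℝ) : ℂ) ^ m =
          ((t ^ m : ℝ) : ℂ) * ((inner ℂ a z) ^ m + (‖(inner ℂ a z : ℂ)‖ : ℂ) ^ m) := by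
        push_cast; ring
      rw [h1, norm_mul, Complex.norm_real, Real.norm_eq_abs, abs_of_pos (by positivity)]
      have h2 : κ * (t * ‖(inner ℂ a z : ℂ)‖) ^ m = t ^ m * (κ * ‖(inner ℂ a z : ℂ)‖ ^ m) := by
        ring
      rw [h2]
      exact mul_le_mul_iff_right₀ (by positivity)
    simp only [this]
  · -- measure bound
    have hsub : {w : W n | T w ∈ G ∧ ‖T w‖ < R} ⊆
        ⋃ a ∈ A, {w : W n | ¬ Good m κ (inner ℂ a (T w)) ∧ ‖T w‖ < R} := by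
      intro w hw
      obtain ⟨⟨a, ha, hb⟩, hR⟩ := hw
      simp only [Set.mem_iUnion]
      exact ⟨a, ha, hb, hR⟩
    have hone : ∀ a ∈ A, volume {w : W n | ¬ Good m κ (inner ℂ a (T w)) ∧ ‖T w‖ < R} ≤
        vb / K := by
      intro a _
      rw [ENNReal.le_div_iff_mul_le (Or.inl (by exact_mod_cast hK0.ne'))
        (Or.inl (ENNReal.natCast_ne_top K)), mul_comm]
      exact meas_bad n K hK0 κ hκ m hm0 a R
    calc volume {w : W n | T w ∈ G ∧ ‖T w‖ < R}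
        ≤ volume (⋃ a ∈ A, {w : W n | ¬ Good m κ (inner ℂ a (T w)) ∧ ‖T w‖ < R}) :=
          measure_mono hsub
      _ ≤ ∑ a ∈ A, volume {w : W n | ¬ Good m κ (inner ℂ a (T w)) ∧ ‖T w‖ < R} :=
          measure_biUnion_finset_le _ _
      _ ≤ ∑ a ∈ A, vb / K := Finset.sum_le_sum hone
      _ = N * (vb / K) := by simp [hN]
      _ ≤ ENNReal.ofReal ε := by
          have h1 : (N : ENNReal) * (vb / K) = ENNReal.ofReal ((N : ℝ) * vb.toReal / K) := by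
            rw [ENNReal.ofReal_div_of_pos (by exact_mod_cast hK0),
              ENNReal.ofReal_mul (by positivity), ENNReal.ofReal_toReal hvbt,
              ENNReal.ofReal_natCast, ENNReal.ofReal_natCast, mul_div_assoc]
          rw [h1]
          exact ENNReal.ofReal_le_ofReal hK
  · intro z hz
    have h1 : F z = ∏ a ∈ A, (1 + (p.eval (inner ℂ a z) - 1)) := by
      rw [hF]
      simp
    rw [h1]
    refine (Finset.norm_prod_one_add_sub_one_le _ _).trans ?_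
    refine le_trans ?_ hδ1a
    have h2 : ∑ a ∈ A, ‖p.eval (inner ℂ a z) - 1‖ ≤ N * δ1 := by
      calc ∑ a ∈ A, ‖p.eval (inner ℂ a z) - 1‖ ≤ ∑ a ∈ A, δ1 :=
            Finset.sum_le_sum (fun a ha => hp1 _ ((hinner a ha z).trans hz))
        _ = N * δ1 := by simp [hN]
    have h3 := Real.exp_le_exp.mpr h2
    linarith
  · intro z hz hzG
    rw [hF]
    simp only [norm_prod]
    calc ∏ a ∈ A, ‖p.eval (inner ℂ a z)‖ ≤ ∏ a ∈ A, (2 / κ + 1) := by
          apply Finset.prod_le_prod (fun a _ => norm_nonneg _)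
          intro a ha
          apply hp2 _ ((hinner a ha z).trans hz)
          by_contra hcon
          exact hzG ⟨a, ha, hcon⟩
      _ = (2 / κ + 1) ^ N := by simp [hN]
  · intro z hz' hz hzG
    have hz0 : 0 < ‖z‖ := hρ'0.trans_le hz'
    have hz0c : (‖z‖ : ℂ) ≠ 0 := by exact_mod_cast hz0.ne'
    obtain ⟨a, ha, hbig⟩ := hA2 ((‖z‖ : ℂ)⁻¹ • z) (by
      rw [norm_smul, norm_inv, Complex.norm_real, norm_norm, inv_mul_cancel₀ hz0.ne'])
    have hbig2 : ρ3 ≤ ‖(inner ℂ a z : ℂ)‖ := by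
      rw [inner_smul_right, norm_mul, norm_inv, Complex.norm_real, norm_norm] at hbig
      rw [div_lt_iff₀ hρ'0] at hbig
      have h1 : ‖z‖⁻¹ * ‖(inner ℂ a z : ℂ)‖ * ρ' ≤ ‖z‖⁻¹ * ‖(inner ℂ a z : ℂ)‖ * ‖z‖ :=
        mul_le_mul_of_nonneg_left hz' (by positivity)
      have h2 : ‖z‖⁻¹ * ‖(inner ℂ a z : ℂ)‖ * ‖z‖ = ‖(inner ℂ a z : ℂ)‖ := by
        field_simp
      linarith
    have hgood : ∀ b ∈ A, Good m κ (inner ℂ b z) := by
      intro b hb
      by_contra hcon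
      exact hzG ⟨b, hb, hcon⟩
    rw [hF]
    simp only [norm_prod]
    rw [← Finset.mul_prod_erase A _ ha]
    have h1 : ‖p.eval (inner ℂ a z)‖ ≤ δ1 :=
      hp3 _ hbig2 ((hinner a ha z).trans hz) (hgood a ha)
    have h2 : ∏ x ∈ A.erase a, ‖p.eval (inner ℂ x z)‖ ≤ (2 / κ + 1) ^ N := by
      calc ∏ x ∈ A.erase a, ‖p.eval (inner ℂ x z)‖ ≤ ∏ x ∈ A.erase a, (2 / κ + 1) := by
            apply Finset.prod_le_prod (fun a _ => norm_nonneg _)
            intro b hb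
            have hb' := Finset.mem_of_mem_erase hb
            exact hp2 _ ((hinner b hb' z).trans hz) (hgood b hb')
        _ = (2 / κ + 1) ^ (A.erase a).card := by simp
        _ ≤ (2 / κ + 1) ^ N := pow_le_pow_right₀ hC1 (Finset.card_le_card (Finset.erase_subset _ _))
    calc ‖p.eval (inner ℂ a z)‖ * ∏ x ∈ A.erase a, ‖p.eval (inner ℂ x z)‖
        ≤ δ1 * (2 / κ + 1) ^ N := mul_le_mul h1 h2 (Finset.prod_nonneg (fun _ _ => norm_nonneg _))
          hδ1.le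
      _ ≤ δ := hδ1b

end Pool.Agent.Lib.MP_29b974_an
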