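import Mathlib
import Pool.Agent.Lib.MP_29b974_an.Key2

set_option autoImplicit false

namespace Pool.Agent.Lib.MP_29b974_an

open Polynomial MeasureTheory

/-- radii -/
noncomputable def rr (j : ℕ) : ℝ := ((j : ℝ) + 1) / ((j : ℝ) + 2)

lemma rr_pos (j : ℕ) : 0 < rr j := by unfold rr; positivity

lemma rr_lt_one (j : ℕ) : rr j < 1 := by
  unfold rr
  rw [div_lt_one (by positivity)]
  linarith

lemma rr_lt_succ (j : ℕ) : rr j < rr (j + 1) := by
  unfold rr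
  rw [div_lt_div_iff₀ (by positivity) (by positivity)]
  push_cast
  nlinarith

lemma rr_mono : Monotone rr := monotone_nat_of_le_succ (fun j => (rr_lt_succ j).le)

lemma rr_eq (j : ℕ) : rr j = 1 - 1 / ((j : ℝ) + 2) := by
  unfold rr
  field_simp
  ring

lemma exists_rr_gt (t : ℝ) (ht : t < 1) : ∃ j, t < rr j := by
  obtain ⟨j, hj⟩ := exists_nat_gt (1 / (1 - t))
  refine ⟨j, ?_⟩
  rw [rr_eq]
  have h1 : 0 < 1 - t := by linarith
  have h2 : 1 / ((j : ℝ) + 2) < 1 - t := by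
    rw [div_lt_comm₀ (by positivity) h1]
    linarith
  linarith

lemma exists_between_rr (K : ℕ) (t : ℝ) (h1 : rr K ≤ t) (ht : t < 1) :
    ∃ k, K ≤ k ∧ rr k ≤ t ∧ t ≤ rr (k + 1) := by
  classical
  have hex : ∃ k, t < rr (K + k + 1) := by
    obtain ⟨j, hj⟩ := exists_rr_gt t ht
    exact ⟨j, hj.trans_le (rr_mono (by omega))⟩
  have hs := Nat.find_spec hex
  refine ⟨K + Nat.find hex, by omega, ?_, hs.le⟩
  rcases Nat.eq_zero_or_pos (Nat.find hex) with h | h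
  · rw [h]; simpa using h1
  · have := Nat.find_min hex (m := Nat.find hex - 1) (by omega)
    rw [not_lt] at this
    have h2 : K + (Nat.find hex - 1) + 1 = K + Nat.find hex := by omega
    rwa [h2] at this

/-- the recursive step -/
lemma step (n : ℕ) (j : ℕ) (Cj Cj' : ℝ) (hC' : 1 ≤ Cj')
    (hkey : ∀ δ : ℝ, 0 < δ → ∃ F : V n → ℂ, ∃ G : Set (V n),
      Differentiable ℂ F ∧
      (∀ t : ℝ, 0 < t → ∀ z : V n, ((t : ℂ) • z ∈ G ↔ z ∈ G)) ∧
      volume {w : W n | T w ∈ G ∧ ‖T w‖ < (j : ℝ) + 1} ≤ ENNReal.ofReal ((1 / 2) ^ j) ∧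
      (∀ z : V n, ‖z‖ ≤ rr j → ‖F z - 1‖ ≤ δ) ∧
      (∀ z : V n, ‖z‖ ≤ 1 → z ∉ G → ‖F z‖ ≤ Cj) ∧
      (∀ z : V n, rr (j + 1) ≤ ‖z‖ → ‖z‖ ≤ 1 → z ∉ G → ‖F z‖ ≤ δ))
    (P : V n → ℂ) (hP : Differentiable ℂ P) :
    ∃ P' : V n → ℂ, ∃ G : Set (V n),
      Differentiable ℂ P' ∧
      (∀ t : ℝ, 0 < t → ∀ z : V n, ((t : ℂ) • z ∈ G ↔ z ∈ G)) ∧
      volume {w : W n | T w ∈ G ∧ ‖T w‖ < (j : ℝ) + 1} ≤ ENNReal.ofReal ((1 / 2) ^ j) ∧
      (∀ z : V n, ‖z‖ ≤ rr j → ‖P' z - P z‖ ≤ (1 / 2) ^ (j + 2)) ∧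
      (∀ z : V n, ‖z‖ ≤ 1 → z ∉ G → ‖P' z‖ ≤ Cj * ‖P z‖) ∧
      (∀ z : V n, rr (j + 1) ≤ ‖z‖ → ‖z‖ ≤ 1 → z ∉ G → Cj' * ‖P' z‖ ≤ (1 / 2) ^ (j + 2)) := by
  obtain ⟨M, hM⟩ := (isCompact_closedBall (0 : V n) 1).exists_bound_of_continuousOn
    hP.continuous.continuousOn
  have hM' : ∀ z : V n, ‖z‖ ≤ 1 → ‖P z‖ ≤ |M| + 1 := by
    intro z hz
    have := hM z (by simpa using hz)
    have h2 := le_abs_self M
    linarith
  have hB : 0 < |M| + 1 := by positivity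
  have hC0 : 0 < Cj' := by linarith
  set δ : ℝ := (1 / 2) ^ (j + 2) / (Cj' * (|M| + 1)) with hδ
  have hδ0 : 0 < δ := by positivity
  obtain ⟨F, G, h1, h2, h3, h4, h5, h6⟩ := hkey δ hδ0
  refine ⟨fun z => P z * F z, G, hP.mul h1, h2, h3, ?_, ?_, ?_⟩
  · intro z hz
    have hz1 : ‖z‖ ≤ 1 := hz.trans (rr_lt_one j).le
    have e1 : P z * F z - P z = P z * (F z - 1) := by ring
    rw [e1, norm_mul]
    have e2 : ‖P z‖ * ‖F z - 1‖ ≤ (|M| + 1) * δ :=
      mul_le_mul (hM' z hz1) (h4 z hz) (norm_nonneg _) hB.le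
    have e3 : (|M| + 1) * δ = (1 / 2) ^ (j + 2) / Cj' := by
      rw [hδ]; field_simp
    rw [e3] at e2
    exact e2.trans (div_le_self (by positivity) hC')
  · intro z hz hzG
    rw [norm_mul, mul_comm]
    exact mul_le_mul_of_nonneg_right (h5 z hz hzG) (norm_nonneg _)
  · intro z hz' hz hzG
    rw [norm_mul]
    have e2 : ‖P z‖ * ‖F z‖ ≤ (|M| + 1) * δ :=
      mul_le_mul (hM' z hz) (h6 z hz' hz hzG) (norm_nonneg _) hB.le
    calc Cj' * (‖P z‖ * ‖F z‖) ≤ Cj' * ((|M| + 1) * δ) :=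
          mul_le_mul_of_nonneg_left e2 hC0.le
      _ = (1 / 2) ^ (j + 2) := by rw [hδ]; field_simp

/-- existence of the whole sequence -/
lemma exists_seq (n : ℕ) : ∃ (C : ℕ → ℝ) (P : ℕ → V n → ℂ) (G : ℕ → Set (V n)),
    (∀ j, 1 ≤ C j) ∧ (∀ z, P 0 z = 1) ∧ (∀ j, Differentiable ℂ (P j)) ∧
    (∀ j, ∀ t : ℝ, 0 < t → ∀ z : V n, ((t : ℂ) • z ∈ G j ↔ z ∈ G j)) ∧
    (∀ j : ℕ, volume {w : W n | T w ∈ G j ∧ ‖T w‖ < (j : ℝ) + 1} ≤
      ENNReal.ofReal ((1 / 2) ^ j)) ∧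
    (∀ j, ∀ z : V n, ‖z‖ ≤ rr j → ‖P (j + 1) z - P j z‖ ≤ (1 / 2) ^ (j + 2)) ∧
    (∀ j, ∀ z : V n, ‖z‖ ≤ 1 → z ∉ G j → ‖P (j + 1) z‖ ≤ C j * ‖P j z‖) ∧
    (∀ j, ∀ z : V n, rr (j + 1) ≤ ‖z‖ → ‖z‖ ≤ 1 → z ∉ G j →
      C (j + 1) * ‖P (j + 1) z‖ ≤ (1 / 2) ^ (j + 2)) := by
  have hkey := fun j : ℕ => key n (rr j) (rr (j + 1)) ((j : ℝ) + 1) ((1 / 2) ^ j) (rr_pos j)
    (rr_lt_succ j) (by positivity)
  choose C hC hF using hkey
  have hst := fun (j : ℕ) (P : {P : V n → ℂ // Differentiable ℂ P}) =>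
    step n j (C j) (C (j + 1)) (hC (j + 1)) (hF j) P.1 P.2
  choose next Gn h1 h2 h3 h4 h5 h6 using hst
  let seq : ℕ → {P : V n → ℂ // Differentiable ℂ P} := fun k =>
    Nat.rec ⟨fun _ => 1, differentiable_const _⟩ (fun j P => ⟨next j P, h1 j P⟩) k
  refine ⟨C, fun j => (seq j).1, fun j => Gn j (seq j), hC, fun z => rfl, fun j => (seq j).2,
    fun j => h2 j (seq j), fun j => h3 j (seq j), fun j => h4 j (seq j), fun j => h5 j (seq j),
    fun j => h6 j (seq j)⟩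

/-- Cauchy estimate for the Frechet derivative -/
lemma fderiv_bound (n : ℕ) (g : V n → ℂ) (hg : Differentiable ℂ g) (z : V n) (s M : ℝ)
    (hs : 0 < s) (hM0 : 0 ≤ M) (hM : ∀ y : V n, ‖y‖ ≤ ‖z‖ + s → ‖g y‖ ≤ M) :
    ‖fderiv ℂ g z‖ ≤ M / s := by
  apply ContinuousLinearMap.opNorm_le_bound _ (by positivity)
  intro v
  rcases eq_or_ne v 0 with rfl | hv
  · simp
  have hv0 : 0 < ‖v‖ := norm_pos_iff.mpr hv
  have h1 : HasDerivAt (fun l : ℂ => g (z + l • v)) (fderiv ℂ g z v) 0 := by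
    have h2 : HasDerivAt (fun l : ℂ => z + l • v) v 0 := by
      have := ((hasDerivAt_id (0 : ℂ)).smul_const v).const_add z
      simpa using this
    have h3 : HasFDerivAt g (fderiv ℂ g z) (z + (0 : ℂ) • v) := by
      simpa using (hg z).hasFDerivAt
    exact h3.comp_hasDerivAt 0 h2
  rw [← h1.deriv]
  have h4 : ‖deriv (fun l : ℂ => g (z + l • v)) 0‖ ≤ M / (s / ‖v‖) := by
    apply Complex.norm_deriv_le_of_forall_mem_sphere_norm_le (by positivity)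
    · apply Differentiable.diffContOnCl
      apply hg.comp
      fun_prop
    · intro l hl
      apply hM
      have hl' : ‖l‖ = s / ‖v‖ := by simpa using hl
      refine (norm_add_le _ _).trans ?_
      rw [norm_smul, hl']
      have : s / ‖v‖ * ‖v‖ = s := by field_simp
      rw [this]
  have h5 : M / (s / ‖v‖) = M / s * ‖v‖ := by
    field_simp
  rwa [h5] at h4

lemma summable_half (k : ℕ) : Summable (fun j : ℕ => (1 / 2 : ℝ) ^ (j + k + 2)) := by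
  have h1 : Summable (fun j : ℕ => (1 / 2 : ℝ) ^ j) := summable_geometric_two
  have h2 := h1.mul_left ((1 / 2 : ℝ) ^ (k + 2))
  refine h2.congr ?_
  intro j
  rw [← pow_add]
  congr 1
  omega

lemma tsum_half (k : ℕ) : ∑' j : ℕ, (1 / 2 : ℝ) ^ (j + k + 2) = (1 / 2) ^ (k + 1) := by
  have h1 : ∀ j : ℕ, (1 / 2 : ℝ) ^ (j + k + 2) = (1 / 2) ^ (k + 2) * (1 / 2) ^ j := by
    intro j
    rw [← pow_add]
    congr 1
    omega
  simp_rw [h1]
  rw [tsum_mul_left, tsum_geometric_two]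
  ring

theorem main_V (n : ℕ) : ∃ (f : V n → ℂ) (G : ℕ → Set (V n)),
    (∀ z : V n, ‖z‖ < 1 → DifferentiableAt ℂ f z) ∧ f 0 ≠ 0 ∧
    (∀ j, ∀ t : ℝ, 0 < t → ∀ z : V n, ((t : ℂ) • z ∈ G j ↔ z ∈ G j)) ∧
    (∀ j : ℕ, volume {w : W n | T w ∈ G j ∧ ‖T w‖ < (j : ℝ) + 1} ≤
      ENNReal.ofReal ((1 / 2) ^ j)) ∧
    (∀ k, ∀ z : V n, rr (k + 1) ≤ ‖z‖ → ‖z‖ ≤ rr (k + 2) → z ∉ G k → z ∉ G (k + 1) →
      ‖f z‖ ≤ (1 / 2) ^ k) := by
  obtain ⟨C, P, G, hC, hP0, hPd, hcone, hvol, ha, hb, hc⟩ := exists_seq n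
  set g : ℕ → V n → ℂ := fun j z => P (j + 1) z - P j z with hg
  have hgd : ∀ j, Differentiable ℂ (g j) := fun j => (hPd (j + 1)).sub (hPd j)
  -- tail bound
  have hgb : ∀ k j, ∀ z : V n, ‖z‖ ≤ rr k → ‖g (j + k) z‖ ≤ (1 / 2) ^ (j + k + 2) := by
    intro k j z hz
    exact ha (j + k) z (hz.trans (rr_mono (by omega)))
  have hgs : ∀ k, ∀ z : V n, ‖z‖ ≤ rr k → Summable (fun j => g (j + k) z) := by
    intro k z hz
    exact Summable.of_norm_bounded (summable_half k) (fun j => hgb k j z hz)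
  set f : V n → ℂ := fun z => 1 + ∑' j, g j z with hf
  -- for every k, f = P k + tail on ‖z‖ ≤ rr k
  have hfk : ∀ k, ∀ z : V n, ‖z‖ ≤ rr k → f z = P k z + ∑' j, g (j + k) z := by
    intro k z hz
    have hs : Summable (fun j => g j z) := (summable_nat_add_iff k).mp (hgs k z hz)
    have h1 := hs.sum_add_tsum_nat_add k
    simp only [hf]
    rw [← h1, ← add_assoc]
    congr 1
    simp only [hg]
    rw [Finset.sum_range_sub (fun j => P j z) k, hP0]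
    ring
  have htail : ∀ k, ∀ z : V n, ‖z‖ ≤ rr k → ‖∑' j, g (j + k) z‖ ≤ (1 / 2) ^ (k + 1) := by
    intro k z hz
    rw [← tsum_half k]
    exact tsum_of_norm_bounded (summable_half k).hasSum (fun j => hgb k j z hz)
  refine ⟨f, G, ?_, ?_, hcone, hvol, ?_⟩
  · -- differentiability
    intro z hz
    obtain ⟨k, hk⟩ := exists_rr_gt ‖z‖ hz
    -- work in ball of radius R' = (‖z‖ + rr k)/2
    set s : ℝ := (rr k - ‖z‖) / 2 with hs
    have hs0 : 0 < s := by rw [hs]; linarith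
    set R' : ℝ := ‖z‖ + s with hR'
    have hR'k : R' + s = rr k := by rw [hR', hs]; ring
    have hzR : z ∈ Metric.ball (0 : V n) R' := by
      rw [Metric.mem_ball, dist_zero_right]
      linarith
    have hsum : Summable (fun j : ℕ => (1 / 2 : ℝ) ^ (j + k + 2) / s) :=
      (summable_half k).div_const s
    have h1 : HasFDerivAt (fun y => ∑' j, g (j + k) y) (∑' j, fderiv ℂ (g (j + k)) z) z := by
      apply hasFDerivAt_tsum_of_isPreconnected (x₀ := (0 : V n)) hsum Metric.isOpen_ball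
        (convex_ball (0 : V n) R').isPreconnected (f' := fun j y => fderiv ℂ (g (j + k)) y)
      · intro j x _
        exact (hgd (j + k) x).hasFDerivAt
      · intro j x hx
        rw [Metric.mem_ball, dist_zero_right] at hx
        apply fderiv_bound n _ (hgd (j + k)) x s _ hs0 (by positivity)
        intro y hy
        exact hgb k j y (by linarith)
      · rw [Metric.mem_ball, dist_self]
        have := norm_nonneg z
        linarith
      · exact hgs k 0 (by rw [norm_zero]; exact (rr_pos k).le)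
      · exact hzR
    have h2 : HasFDerivAt (fun y => P k y + ∑' j, g (j + k) y)
        (fderiv ℂ (P k) z + ∑' j, fderiv ℂ (g (j + k)) z) z :=
      (hPd k z).hasFDerivAt.add h1
    have h3 : f =ᶠ[nhds z] (fun y => P k y + ∑' j, g (j + k) y) := by
      filter_upwards [Metric.isOpen_ball.mem_nhds hzR] with y hy
      rw [Metric.mem_ball, dist_zero_right] at hy
      exact hfk k y (by linarith)
    exact (h2.congr_of_eventuallyEq h3).differentiableAt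
  · intro h0
    have h1 := hfk 0 0 (by rw [norm_zero]; exact (rr_pos 0).le)
    have h2 := htail 0 0 (by rw [norm_zero]; exact (rr_pos 0).le)
    rw [h0, hP0] at h1
    have h3 : ∑' j, g (j + 0) (0 : V n) = -1 := by
      linear_combination -h1
    rw [h3, norm_neg, norm_one] at h2
    norm_num at h2
  · intro k z hz1 hz2 hGk hGk1
    have hz1' : ‖z‖ ≤ 1 := hz2.trans (rr_lt_one _).le
    have h1 := hc k z hz1 hz1' hGk
    have h2 := hb (k + 1) z hz1' hGk1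
    have h3 := hfk (k + 2) z hz2
    have h4 := htail (k + 2) z hz2
    rw [h3]
    refine (norm_add_le _ _).trans ?_
    have h5 : ‖P (k + 1 + 1) z‖ ≤ (1 / 2) ^ (k + 2) := h2.trans h1
    have h6 : ((1 : ℝ) / 2) ^ (k + 2) = (1 / 2) ^ k * (1 / 4) := by ring
    have h7 : ((1 : ℝ) / 2) ^ (k + 2 + 1) = (1 / 2) ^ k * (1 / 8) := by ring
    have h8 : (0 : ℝ) < (1 / 2) ^ k := by positivity
    have h9 : P (k + 2) z = P (k + 1 + 1) z := rfl
    rw [h6] at h5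
    rw [h7] at h4
    rw [h9]
    linarith

end Pool.Agent.Lib.MP_29b974_an
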