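import Mathlib
import Pool.Agent.Lib.MP_29b974_an.Key

/-!
Uniqueness of the unitarily invariant measure on the unit sphere of `ℂ^n`, in the form needed:
null sets of the surface measure are null for every finite unitarily invariant measure on the
sphere.
-/

set_option autoImplicit false

namespace Pool.Agent.Lib.MP_29b974_an

open MeasureTheory
open scoped Pointwise

/-- Two finite measures on `S` which give the same mass to all balls of the same radius centred on
`S`: the null sets of the second one are null for the first one. -/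
lemma null_of_uniform {E : Type} [MetricSpace E] [SecondCountableTopology E] [MeasurableSpace E]
    [BorelSpace E] (S : Set E) (σ τ : Measure E) [IsFiniteMeasure σ] [IsFiniteMeasure τ]
    (hσS : σ Sᶜ = 0) (hτS : τ Sᶜ = 0)
    (hσ : ∀ x ∈ S, ∀ y ∈ S, ∀ δ : ℝ, σ (Metric.ball x δ) = σ (Metric.ball y δ))
    (hτ : ∀ x ∈ S, ∀ y ∈ S, ∀ δ : ℝ, τ (Metric.ball x δ) = τ (Metric.ball y δ))
    (hpos : ∀ x ∈ S, ∀ δ : ℝ, 0 < δ → τ (Metric.ball x δ) ≠ 0)
    (N : Set E) (hN : τ N = 0) : σ N = 0 := by
  rcases S.eq_empty_or_nonempty with rfl | ⟨x0, hx0⟩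
  · rw [Set.compl_empty] at hσS
    exact measure_mono_null (Set.subset_univ N) hσS
  have hσae : ∀ᵐ x ∂σ, x ∈ S := by
    rw [ae_iff]
    exact hσS
  have hτae : ∀ᵐ x ∂τ, x ∈ S := by
    rw [ae_iff]
    exact hτS
  -- the two masses of balls
  have hmeas : ∀ δ : ℝ, MeasurableSet {p : E × E | dist p.1 p.2 < δ} := fun δ =>
    (isOpen_lt (by fun_prop) continuous_const).measurableSet
  have h1 : ∀ δ : ℝ, τ (Metric.ball x0 δ) * σ Set.univ = σ (Metric.ball x0 δ) * τ Set.univ := by
    intro δ
    have e1 := Measure.prod_apply (μ := σ) (ν := τ) (hmeas δ)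
    have e2 := Measure.prod_apply_symm (μ := σ) (ν := τ) (hmeas δ)
    have f1 : ∫⁻ x, τ (Prod.mk x ⁻¹' {p : E × E | dist p.1 p.2 < δ}) ∂σ
        = ∫⁻ _x, τ (Metric.ball x0 δ) ∂σ := by
      apply lintegral_congr_ae
      filter_upwards [hσae] with x hx
      rw [← hτ x hx x0 hx0 δ]
      congr 1
      ext y
      simp [Metric.mem_ball, dist_comm]
    have f2 : ∫⁻ y, σ ((fun x => (x, y)) ⁻¹' {p : E × E | dist p.1 p.2 < δ}) ∂τ
        = ∫⁻ _y, σ (Metric.ball x0 δ) ∂τ := by
      apply lintegral_congr_ae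
      filter_upwards [hτae] with y hy
      rw [← hσ y hy x0 hx0 δ]
      congr 1
    rw [f1, lintegral_const] at e1
    rw [f2, lintegral_const] at e2
    rw [← e1, ← e2]
  -- open sets
  have h2 : ∀ U : Set E, IsOpen U → τ Set.univ * σ U ≤ σ Set.univ * τ U := by
    intro U hU
    have h3 : ∀ δ : ℝ, 0 < δ →
        τ Set.univ * σ (Metric.thickening δ Uᶜ)ᶜ ≤ σ Set.univ * τ U := by
      intro δ hδ
      set A : Set (E × E) := {p : E × E | p.1 ∈ (Metric.thickening δ Uᶜ)ᶜ ∧ dist p.1 p.2 < δ}
        with hA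
      have hAm : MeasurableSet A := by
        have g1 : MeasurableSet {p : E × E | p.1 ∈ (Metric.thickening δ Uᶜ)ᶜ} :=
          measurable_fst (Metric.isOpen_thickening.measurableSet.compl)
        exact g1.inter (hmeas δ)
      have e1 := Measure.prod_apply (μ := σ) (ν := τ) hAm
      have e2 := Measure.prod_apply_symm (μ := σ) (ν := τ) hAm
      have f1 : τ (Metric.ball x0 δ) * σ (Metric.thickening δ Uᶜ)ᶜ ≤
          ∫⁻ x, τ (Prod.mk x ⁻¹' A) ∂σ := by
        rw [← setLIntegral_const]
        rw [← lintegral_indicator (Metric.isOpen_thickening.measurableSet.compl)]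
        apply lintegral_mono_ae
        filter_upwards [hσae] with x hx
        by_cases hxU : x ∈ (Metric.thickening δ Uᶜ)ᶜ
        · rw [Set.indicator_of_mem hxU, ← hτ x hx x0 hx0 δ]
          apply measure_mono
          intro y hy
          rw [Metric.mem_ball, dist_comm] at hy
          exact ⟨hxU, hy⟩
        · rw [Set.indicator_of_notMem hxU]
          exact zero_le
      have f2 : ∫⁻ y, σ ((fun x => (x, y)) ⁻¹' A) ∂τ ≤ σ (Metric.ball x0 δ) * τ U := by
        rw [← setLIntegral_const, ← lintegral_indicator hU.measurableSet]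
        apply lintegral_mono_ae
        filter_upwards [hτae] with y hy
        by_cases hyU : y ∈ U
        · rw [Set.indicator_of_mem hyU, ← hσ y hy x0 hx0 δ]
          apply measure_mono
          rintro x ⟨-, hx⟩
          exact hx
        · rw [Set.indicator_of_notMem hyU]
          have : (fun x => (x, y)) ⁻¹' A = ∅ := by
            rw [Set.eq_empty_iff_forall_notMem]
            rintro x ⟨hx1, hx2⟩
            apply hx1
            rw [Metric.mem_thickening_iff]
            exact ⟨y, hyU, hx2⟩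
          rw [this, measure_empty]
      have f3 : τ (Metric.ball x0 δ) * σ (Metric.thickening δ Uᶜ)ᶜ ≤
          σ (Metric.ball x0 δ) * τ U := by
        refine f1.trans ?_
        rw [← e1, e2]
        exact f2
      have hb0 := hpos x0 hx0 δ hδ
      have hbt : τ (Metric.ball x0 δ) ≠ ⊤ := measure_ne_top _ _
      have f4 : τ (Metric.ball x0 δ) * (τ Set.univ * σ (Metric.thickening δ Uᶜ)ᶜ) ≤
          τ (Metric.ball x0 δ) * (σ Set.univ * τ U) := by
        calc τ (Metric.ball x0 δ) * (τ Set.univ * σ (Metric.thickening δ Uᶜ)ᶜ)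
            = τ Set.univ * (τ (Metric.ball x0 δ) * σ (Metric.thickening δ Uᶜ)ᶜ) := by ring
          _ ≤ τ Set.univ * (σ (Metric.ball x0 δ) * τ U) := by gcongr
          _ = (σ (Metric.ball x0 δ) * τ Set.univ) * τ U := by ring
          _ = (τ (Metric.ball x0 δ) * σ Set.univ) * τ U := by rw [h1]
          _ = τ (Metric.ball x0 δ) * (σ Set.univ * τ U) := by ring
      exact (ENNReal.mul_le_mul_iff_right hb0 hbt).mp f4
    -- exhaust `U`
    have h4 : U = ⋃ k : ℕ, (Metric.thickening (1 / ((k : ℝ) + 1)) Uᶜ)ᶜ := by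
      ext x
      rw [Set.mem_iUnion]
      constructor
      · intro hx
        obtain ⟨ε, hε, hball⟩ := Metric.isOpen_iff.mp hU x hx
        obtain ⟨k, hk⟩ := exists_nat_one_div_lt hε
        refine ⟨k, ?_⟩
        intro hmem
        rw [Metric.mem_thickening_iff] at hmem
        obtain ⟨y, hy, hxy⟩ := hmem
        apply hy
        apply hball
        rw [Metric.mem_ball, dist_comm]
        exact hxy.trans hk
      · rintro ⟨k, hk⟩
        by_contra hx
        apply hk
        rw [Metric.mem_thickening_iff]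
        exact ⟨x, hx, by rw [dist_self]; positivity⟩
    have h5 : Monotone (fun k : ℕ => (Metric.thickening (1 / ((k : ℝ) + 1)) Uᶜ)ᶜ) := by
      intro k l hkl
      apply Set.compl_subset_compl.mpr
      apply Metric.thickening_mono
      apply one_div_le_one_div_of_le (by positivity)
      have : (k : ℝ) ≤ l := by exact_mod_cast hkl
      linarith
    have h6 : σ U = ⨆ k : ℕ, σ (Metric.thickening (1 / ((k : ℝ) + 1)) Uᶜ)ᶜ := by
      conv_lhs => rw [h4]
      exact h5.measure_iUnion
    rw [h6, ENNReal.mul_iSup]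
    exact iSup_le (fun k => h3 _ (by positivity))
  -- null sets
  have h7 : τ Set.univ ≠ 0 := by
    intro h
    exact hpos x0 hx0 1 one_pos (measure_mono_null (Set.subset_univ _) h)
  have h8 : τ Set.univ * σ N ≤ σ Set.univ * 0 := by
    have ht : Filter.Tendsto (fun k : ℕ => σ Set.univ * ((k : ENNReal))⁻¹) Filter.atTop
        (nhds (σ Set.univ * 0)) :=
      ENNReal.Tendsto.const_mul ENNReal.tendsto_inv_nat_nhds_zero (Or.inr (measure_ne_top _ _))
    refine ge_of_tendsto' ht (fun k => ?_)
    have hk : τ N < ((k : ENNReal))⁻¹ := by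
      rw [hN]
      exact ENNReal.inv_pos.mpr (ENNReal.natCast_ne_top k)
    obtain ⟨U, hNU, hU, hτU⟩ := N.exists_isOpen_lt_of_lt _ hk
    calc τ Set.univ * σ N ≤ τ Set.univ * σ U := by gcongr
      _ ≤ σ Set.univ * τ U := h2 U hU
      _ ≤ σ Set.univ * ((k : ENNReal))⁻¹ := by gcongr
  rw [mul_zero] at h8
  have h9 := le_antisymm h8 zero_le
  rcases mul_eq_zero.mp h9 with h | h
  · exact absurd h h7
  · exact h

/-- Unitary maps act transitively on the unit sphere. -/
lemma exists_unitary (n : ℕ) (x y : V n) (hx : ‖x‖ = 1) (hy : ‖y‖ = 1) :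
    ∃ U : V n ≃ₗᵢ[ℂ] V n, U x = y := by
  let L : Submodule.span ℂ {x} →ₗᵢ[ℂ] V n :=
    (LinearIsometry.toSpanSingleton ℂ (V n) hy).comp
      (LinearIsometryEquiv.toSpanUnitSingleton x hx).symm.toLinearIsometry
  refine ⟨L.extend.toLinearIsometryEquiv rfl, ?_⟩
  have h1 : L.extend x = L ⟨x, Submodule.mem_span_singleton_self x⟩ :=
    L.extend_apply ⟨x, Submodule.mem_span_singleton_self x⟩
  have h2 : (LinearIsometryEquiv.toSpanUnitSingleton x hx).symm
      ⟨x, Submodule.mem_span_singleton_self x⟩ = (1 : ℂ) := by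
    rw [LinearIsometryEquiv.symm_apply_eq]
    ext1
    simp
  show L.extend x = y
  rw [h1]
  show ((LinearIsometryEquiv.toSpanUnitSingleton (𝕜 := ℂ) x hx).symm
    ⟨x, Submodule.mem_span_singleton_self x⟩ : ℂ) • y = y
  rw [h2, one_smul]

/-- Null sets of the surface measure are null for every unitarily invariant finite measure on the
unit sphere. -/
lemma null_invariant (n : ℕ) (σ : Measure (V n)) [IsFiniteMeasure σ]
    (hσS : σ (Metric.sphere (0 : V n) 1)ᶜ = 0)
    (hσ : ∀ U : V n ≃ₗᵢ[ℂ] V n, σ.map U = σ)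
    (p : V n → Prop)
    (hp : ∀ᵐ ζ : Metric.sphere (0 : V n) 1 ∂(volume : Measure (V n)).toSphere, p ζ) :
    ∀ᵐ ζ ∂σ, p ζ := by
  set S : Set (V n) := Metric.sphere (0 : V n) 1 with hS
  have hemb : MeasurableEmbedding (Subtype.val : S → V n) :=
    MeasurableEmbedding.subtype_coe (by rw [hS]; exact Metric.isClosed_sphere.measurableSet)
  set τ : Measure (V n) := (volume : Measure (V n)).toSphere.map Subtype.val with hτ
  have hfin : IsFiniteMeasure τ := by
    rw [hτ]; infer_instance
  have hball : ∀ (x : V n) (δ : ℝ), τ (Metric.ball x δ) = (Module.finrank ℝ (V n) : ENNReal) *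
      volume (Set.Ioo (0 : ℝ) 1 • (S ∩ Metric.ball x δ)) := by
    intro x δ
    rw [hτ, hemb.map_apply, Measure.toSphere_apply' _
      (measurable_subtype_coe Metric.isOpen_ball.measurableSet)]
    congr 3
    rw [Subtype.image_preimage_coe]
  have key := null_of_uniform S σ τ hσS ?_ ?_ ?_ ?_ {ζ | ¬ p ζ} ?_
  · rw [ae_iff]; exact key
  · rw [hτ, hemb.map_apply]
    have : (Subtype.val : S → V n) ⁻¹' Sᶜ = ∅ := by
      ext x
      simp
    rw [this, measure_empty]
  · intro x hx y hy δ
    obtain ⟨U, hU⟩ := exists_unitary n x y (by simpa [hS] using hx) (by simpa [hS] using hy)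
    have hU2 : MeasurableEmbedding (U : V n → V n) := U.toHomeomorph.measurableEmbedding
    rw [← hU]
    conv_rhs => rw [← hσ U]
    rw [hU2.map_apply]
    congr 1
    ext z
    rw [Set.mem_preimage, Metric.mem_ball, Metric.mem_ball, U.dist_map]
  · intro x hx y hy δ
    obtain ⟨U, hU⟩ := exists_unitary n x y (by simpa [hS] using hx) (by simpa [hS] using hy)
    rw [hball, hball]
    congr 1
    let Ur : V n ≃ₗᵢ[ℝ] V n :=
      { U.toLinearEquiv.restrictScalars ℝ with norm_map' := U.norm_map }
    have hUr : ∀ z, Ur z = U z := fun z => rfl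
    rw [← Ur.measurePreserving.measure_preimage_emb Ur.toHomeomorph.measurableEmbedding
      (Set.Ioo (0 : ℝ) 1 • (S ∩ Metric.ball y δ))]
    congr 1
    ext z
    rw [Set.mem_preimage, Set.mem_smul, Set.mem_smul, hUr]
    constructor
    · rintro ⟨r, hr, w, ⟨hw1, hw2⟩, rfl⟩
      refine ⟨r, hr, U w, ⟨?_, ?_⟩, ?_⟩
      · simpa [hS] using hw1
      · rw [← hU, Metric.mem_ball, U.dist_map]
        exact hw2
      · exact (map_smul Ur r w).symm
    · rintro ⟨r, hr, w, ⟨hw1, hw2⟩, hw3⟩
      refine ⟨r, hr, U.symm w, ⟨?_, ?_⟩, ?_⟩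
      · simpa [hS] using hw1
      · rw [Metric.mem_ball, ← U.dist_map, LinearIsometryEquiv.apply_symm_apply, hU]
        exact hw2
      · apply U.injective
        have h1 : U (r • U.symm w) = r • U (U.symm w) := map_smul Ur r (U.symm w)
        rw [h1, LinearIsometryEquiv.apply_symm_apply]
        exact hw3
  · intro x hx δ hδ
    rw [hτ, hemb.map_apply]
    have : IsOpen ((Subtype.val : S → V n) ⁻¹' Metric.ball x δ) :=
      Metric.isOpen_ball.preimage continuous_subtype_val
    exact this.measure_ne_zero _ ⟨⟨x, hx⟩, by simp [hδ]⟩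
  · rw [hτ, hemb.map_apply]
    exact hp

end Pool.Agent.Lib.MP_29b974_an
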